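import Pool.Agent.K3h5.IB.Stm

/-!
# The conditions determine the law of `X^(∞)`

Brick UNIQ of project IB of helper5.
-/

set_option autoImplicit false

open MeasureTheory Filter Topology

namespace Pool.Agent.K3h94.IB

open Pool.Agent.K3h5.IB

universe u v

section cyl

variable {d : ℕ}

/-- the path begins with `y 0, ..., y n` -/
def cyl (n : ℕ) (y : ℕ → V d) : Set (ℕ → V d) := {z | ∀ k ≤ n, z k = y k}

/-- the cylinders -/
def cyls (d : ℕ) : Set (Set (ℕ → V d)) := {C | ∃ n y, C = cyl n y}

theorem measurableSet_cyl (n : ℕ) (y : ℕ → V d) : MeasurableSet (cyl n y) := by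
  have h : cyl n y = ⋂ k ∈ Set.Iic n, (fun z : ℕ → V d => z k) ⁻¹' {y k} := by
    ext z
    simp [cyl]
  rw [h]
  exact MeasurableSet.biInter (Set.to_countable _) fun k _ =>
    measurable_pi_apply k (measurableSet_singleton _)

theorem isPi_cyls : IsPiSystem (cyls d) := by
  rintro _ ⟨n, y, rfl⟩ _ ⟨m, y', rfl⟩ ⟨z, hz, hz'⟩
  refine ⟨max n m, z, ?_⟩
  ext w
  constructor
  · rintro ⟨hw, hw'⟩ k hk
    rcases le_max_iff.1 hk with h | h
    · rw [hw k h, hz k h]
    · rw [hw' k h, hz' k h]
  · intro hw
    exact ⟨fun k hk => by rw [hw k (hk.trans (le_max_left _ _)), hz k hk],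
      fun k hk => by rw [hw k (hk.trans (le_max_right _ _)), hz' k hk]⟩

theorem gen_cyls : (MeasurableSpace.pi : MeasurableSpace (ℕ → V d)) =
    MeasurableSpace.generateFrom (cyls d) := by
  apply le_antisymm
  · refine iSup_le fun k => ?_
    rintro _ ⟨s, hs, rfl⟩
    have h : (fun z : ℕ → V d => z k) ⁻¹' s = ⋃ (l : Fin (k + 1) → V d)
        (_ : l (Fin.last k) ∈ s), cyl k (fun j => if h : j < k + 1 then l ⟨j, h⟩ else 0) := by
      ext z
      simp only [Set.mem_preimage, Set.mem_iUnion]
      constructor
      · intro hz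
        refine ⟨fun j => z j, by simpa using hz, fun j hj => ?_⟩
        show z j = if h : j < k + 1 then z j else 0
        rw [dif_pos (Nat.lt_succ_of_le hj)]
      · rintro ⟨l, hl, hz⟩
        have h1 : z k = if h : k < k + 1 then l ⟨k, h⟩ else 0 := hz k le_rfl
        rw [dif_pos (Nat.lt_succ_self k)] at h1
        show z k ∈ s
        rw [h1]
        exact hl
    rw [h]
    exact MeasurableSet.iUnion fun l => MeasurableSet.iUnion fun _ =>
      MeasurableSpace.measurableSet_generateFrom ⟨_, _, rfl⟩
  · refine MeasurableSpace.generateFrom_le ?_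
    rintro _ ⟨n, y, rfl⟩
    exact measurableSet_cyl n y

/-- measures on the path space are determined by the cylinders -/
theorem ext_cyl (m m' : Measure (ℕ → V d)) [IsFiniteMeasure m]
    (h : ∀ n y, m (cyl n y) = m' (cyl n y)) (hu : m Set.univ = m' Set.univ) : m = m' := by
  refine ext_of_generate_finite (cyls d) gen_cyls isPi_cyls ?_ hu
  rintro _ ⟨n, y, rfl⟩
  exact h n y

end cyl

section levels

variable {d : ℕ}

/-- keep the levels below `i` -/
def cut (i : ℕ) (X : ℕ → ℕ → V d) : ℕ → ℕ → V d := fun j => if j < i then X j else 0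

theorem measurable_cut (i : ℕ) : Measurable (cut (d := d) i) := by
  refine measurable_pi_lambda _ fun j => ?_
  unfold cut
  by_cases h : j < i
  · simp only [h, if_true]
    exact measurable_pi_apply j
  · simp only [h, if_false]
    exact measurable_const

theorem cut_cut (i j : ℕ) (h : i ≤ j) (X : ℕ → ℕ → V d) : cut i (cut j X) = cut i X := by
  funext k
  unfold cut
  by_cases h1 : k < i
  · rw [if_pos h1, if_pos h1, if_pos (h1.trans_le h)]
  · rw [if_neg h1, if_neg h1]

theorem graph_cut (i : ℕ) (X : ℕ → ℕ → V d) : graph (cut i X) i = graph X i := by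
  rcases i with _ | i
  · rfl
  · show trace (cut (i + 1) X i) = trace (X i)
    unfold cut
    rw [if_pos (Nat.lt_succ_self i)]

/-- measures on the sequences of paths are determined by the finitely many first paths -/
theorem ext_levels (m m' : Measure (ℕ → ℕ → V d)) [IsFiniteMeasure m]
    (h : ∀ i, m.map (cut i) = m'.map (cut i)) (hu : m Set.univ = m' Set.univ) : m = m' := by
  refine ext_of_generate_finite {S | ∃ (i : ℕ) (B : Set (ℕ → ℕ → V d)), MeasurableSet B ∧
    S = cut i ⁻¹' B} ?_ ?_ ?_ hu
  · apply le_antisymm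
    · refine iSup_le fun k => ?_
      rintro _ ⟨s, hs, rfl⟩
      refine MeasurableSpace.measurableSet_generateFrom
        ⟨k + 1, (fun X : ℕ → ℕ → V d => X k) ⁻¹' s, measurable_pi_apply k hs, ?_⟩
      ext X
      simp only [Set.mem_preimage]
      unfold cut
      rw [if_pos (Nat.lt_succ_self k)]
    · refine MeasurableSpace.generateFrom_le ?_
      rintro _ ⟨i, B, hB, rfl⟩
      exact measurable_cut i hB
  · rintro _ ⟨i, B, hB, rfl⟩ _ ⟨j, B', hB', rfl⟩ -
    rcases le_total i j with hij | hij
    · refine ⟨j, cut i ⁻¹' B ∩ B', (measurable_cut i hB).inter hB', ?_⟩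
      ext X
      simp only [Set.mem_inter_iff, Set.mem_preimage, cut_cut i j hij]
    · refine ⟨i, B ∩ cut j ⁻¹' B', hB.inter (measurable_cut j hB'), ?_⟩
      ext X
      simp only [Set.mem_inter_iff, Set.mem_preimage, cut_cut j i hij]
  · rintro _ ⟨i, B, hB, rfl⟩
    have h1 := congrArg (fun ρ : Measure (ℕ → ℕ → V d) => ρ B) (h i)
    simp only [Measure.map_apply (measurable_cut i) hB] at h1
    exact h1

/-- `cut i` and the path number `i` give `cut (i + 1)` -/
def glue (i : ℕ) (a : (ℕ → ℕ → V d) × (ℕ → V d)) : ℕ → ℕ → V d :=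
  fun j => if j < i then a.1 j else if j = i then a.2 else 0

theorem measurable_glue (i : ℕ) : Measurable (glue (d := d) i) := by
  refine measurable_pi_lambda _ fun j => ?_
  unfold glue
  by_cases h : j < i
  · simp only [h, if_true]
    exact (measurable_pi_apply j).comp measurable_fst
  · simp only [h, if_false]
    by_cases h1 : j = i
    · simp only [h1, if_true]
      exact measurable_snd
    · simp only [h1, if_false]
      exact measurable_const

theorem glue_cut (i : ℕ) (X : ℕ → ℕ → V d) : glue i (cut i X, X i) = cut (i + 1) X := by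
  funext j
  unfold glue cut
  rcases lt_trichotomy j i with h | h | h
  · simp only [h, if_true]
    rw [if_pos (by omega)]
  · subst h
    simp
  · rw [if_neg (by omega), if_neg (by omega), if_neg (by omega)]

end levels

section laws

variable {d : ℕ} {p : ℕ → D d → ℝ} {q : D d → ℝ}

theorem meas_X {Ω : Type u} [MeasurableSpace Ω] {μ : Measure Ω} {X : Ω → ℕ → ℕ → V d}
    {Y : Ω → ℕ → V d} (h : IsIterated μ p q X Y) : Measurable X :=
  measurable_pi_lambda _ fun i => measurable_pi_lambda _ fun n => (h.walk i).meas n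

theorem meas_Y {Ω : Type u} [MeasurableSpace Ω] {μ : Measure Ω} {X : Ω → ℕ → ℕ → V d}
    {Y : Ω → ℕ → V d} (h : IsIterated μ p q X Y) : Measurable Y :=
  measurable_pi_lambda _ fun n => h.walkInf.meas n

theorem meas_past {Ω : Type u} [MeasurableSpace Ω] (X : Ω → ℕ → ℕ → V d) (i : ℕ) :
    @Measurable Ω _ (past X i) _ (fun ω => cut i (X ω)) := by
  refine @measurable_pi_lambda _ _ _ (past X i) _ _ fun j => ?_
  unfold cut
  by_cases h : j < i
  · simp only [h, if_true]
    have h1 : MeasurableSpace.comap (fun ω => X ω j) inferInstance ≤ past X i :=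
      le_iSup (fun j : Fin i => MeasurableSpace.comap (fun ω => X ω j) inferInstance) ⟨j, h⟩
    exact (comap_measurable (fun ω => X ω j)).mono h1 le_rfl
  · simp only [h, if_false]
    exact measurable_const

/-- the law of the path number `i` and of the previous ones -/
theorem law_step (hW : S_MEASW) {Ω : Type u} [MeasurableSpace Ω] {μ : Measure Ω}
    [IsProbabilityMeasure μ] {X : Ω → ℕ → ℕ → V d} {Y : Ω → ℕ → V d}
    (h : IsIterated μ p q X Y) (i : ℕ) (B : Set (ℕ → ℕ → V d)) (hB : MeasurableSet B) (n : ℕ)
    (y : ℕ → V d) : μ.real ((fun ω => cut i (X ω)) ⁻¹' B ∩ (fun ω => X ω i) ⁻¹' cyl n y) =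
      ∫ Z in B, weight (p i) (graph Z i) y n ∂(μ.map fun ω => cut i (X ω)) := by
  have h1 := (h.walk i).law ((fun ω => cut i (X ω)) ⁻¹' B) (meas_past X i hB) n y
  have h2 : (fun ω => X ω i) ⁻¹' cyl n y = {ω | ∀ k ≤ n, X ω i k = y k} := rfl
  rw [h2, h1]
  have hm : Measurable fun ω => cut i (X ω) := (measurable_cut i).comp (meas_X h)
  rw [setIntegral_map hB ((hW d (p i) y n).1 i).aestronglyMeasurable hm.aemeasurable]
  refine integral_congr_ae (ae_of_all _ fun ω => ?_)
  show weight (p i) (graph (X ω) i) y n = weight (p i) (graph (cut i (X ω)) i) y n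
  rw [graph_cut]

theorem law_inf (hW : S_MEASW) {Ω : Type u} [MeasurableSpace Ω] {μ : Measure Ω}
    [IsProbabilityMeasure μ] {X : Ω → ℕ → ℕ → V d} {Y : Ω → ℕ → V d}
    (h : IsIterated μ p q X Y) (n : ℕ) (y : ℕ → V d) : μ.real (Y ⁻¹' cyl n y) =
      ∫ Z, weight q (graphInf Z) y n ∂(μ.map X) := by
  have h1 := h.walkInf.law Set.univ (@MeasurableSet.univ _ (sigmaGraph fun ω => graphInf (X ω))) n y
  rw [Set.univ_inter, Measure.restrict_univ] at h1
  have h2 : Y ⁻¹' cyl n y = {ω | ∀ k ≤ n, Y ω k = y k} := rfl
  rw [h2, h1, integral_map (meas_X h).aemeasurable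
    ((hW d q y n).2.1).aestronglyMeasurable]

theorem law_cut (hW : S_MEASW) {Ω : Type u} [MeasurableSpace Ω] {μ : Measure Ω}
    [IsProbabilityMeasure μ] {X : Ω → ℕ → ℕ → V d} {Y : Ω → ℕ → V d}
    (h : IsIterated μ p q X Y) {Ω' : Type v} [MeasurableSpace Ω'] {μ' : Measure Ω'}
    [IsProbabilityMeasure μ'] {X' : Ω' → ℕ → ℕ → V d} {Y' : Ω' → ℕ → V d}
    (h' : IsIterated μ' p q X' Y') (i : ℕ) :
    (μ.map fun ω => cut i (X ω)) = μ'.map fun ω => cut i (X' ω) := by
  induction i with
  | zero =>
    have h1 : ∀ X : ℕ → ℕ → V d, cut 0 X = 0 := by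
      intro X
      funext j
      unfold cut
      rw [if_neg (Nat.not_lt_zero j)]
      rfl
    simp only [h1, Measure.map_const, measure_univ]
  | succ i ih =>
    have hm : Measurable fun ω => cut i (X ω) := (measurable_cut i).comp (meas_X h)
    have hm' : Measurable fun ω => cut i (X' ω) := (measurable_cut i).comp (meas_X h')
    have hXi : Measurable fun ω => X ω i := (measurable_pi_apply i).comp (meas_X h)
    have hXi' : Measurable fun ω => X' ω i := (measurable_pi_apply i).comp (meas_X h')
    have key : (μ.map fun ω => (cut i (X ω), X ω i)) =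
        μ'.map fun ω => (cut i (X' ω), X' ω i) := by
      refine Measure.ext_prod fun {B C} hB hC => ?_
      rw [Measure.map_apply (hm.prodMk hXi) (hB.prod hC),
        Measure.map_apply (hm'.prodMk hXi') (hB.prod hC)]
      have hAm := hm hB
      have hAm' := hm' hB
      have h1 : ((μ.restrict ((fun ω => cut i (X ω)) ⁻¹' B)).map fun ω => X ω i) =
          (μ'.restrict ((fun ω => cut i (X' ω)) ⁻¹' B)).map fun ω => X' ω i := by
        refine ext_cyl _ _ (fun n y => ?_) ?_
        · rw [Measure.map_apply hXi (measurableSet_cyl n y),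
            Measure.map_apply hXi' (measurableSet_cyl n y),
            Measure.restrict_apply (hXi (measurableSet_cyl n y)),
            Measure.restrict_apply (hXi' (measurableSet_cyl n y)), Set.inter_comm,
            Set.inter_comm (_ ⁻¹' _) ((fun ω => cut i (X' ω)) ⁻¹' B)]
          have h2 := law_step hW h i B hB n y
          rw [ih, ← law_step hW h' i B hB n y] at h2
          exact (measureReal_eq_measureReal_iff).1 h2
        · rw [Measure.map_apply hXi MeasurableSet.univ, Measure.map_apply hXi' MeasurableSet.univ,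
            Set.preimage_univ, Set.preimage_univ, Measure.restrict_apply_univ,
            Measure.restrict_apply_univ, ← Measure.map_apply hm hB, ← Measure.map_apply hm' hB, ih]
      have h2 := congrArg (fun ρ : Measure (ℕ → V d) => ρ C) h1
      simp only [Measure.map_apply hXi hC, Measure.map_apply hXi' hC,
        Measure.restrict_apply (hXi hC), Measure.restrict_apply (hXi' hC)] at h2
      rw [Set.inter_comm, Set.inter_comm (_ ⁻¹' _) ((fun ω => cut i (X' ω)) ⁻¹' B)] at h2
      exact h2
    have h3 := congrArg (fun ρ : Measure ((ℕ → ℕ → V d) × (ℕ → V d)) => ρ.map (glue i)) key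
    simp only [Measure.map_map (measurable_glue i) (hm.prodMk hXi),
      Measure.map_map (measurable_glue i) (hm'.prodMk hXi')] at h3
    have h4 : (glue i ∘ fun ω => (cut i (X ω), X ω i)) = fun ω => cut (i + 1) (X ω) := by
      funext ω
      exact glue_cut i (X ω)
    have h5 : (glue i ∘ fun ω => (cut i (X' ω), X' ω i)) = fun ω => cut (i + 1) (X' ω) := by
      funext ω
      exact glue_cut i (X' ω)
    rw [h4, h5] at h3
    exact h3

end laws

theorem t_UNIQ (hW : S_MEASW) : S_UNIQ.{u} := by
  intro d p q Ω _ μ _ Ω' _ μ' _ X Y X' Y' h h'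
  have hX := meas_X h
  have hX' := meas_X h'
  have hY := meas_Y h
  have hY' := meas_Y h'
  have h1 : μ.map X = μ'.map X' := by
    refine ext_levels _ _ (fun i => ?_) ?_
    · rw [Measure.map_map (measurable_cut i) hX, Measure.map_map (measurable_cut i) hX']
      exact law_cut hW h h' i
    · rw [Measure.map_apply hX MeasurableSet.univ, Measure.map_apply hX' MeasurableSet.univ,
        Set.preimage_univ, Set.preimage_univ, measure_univ, measure_univ]
  refine ext_cyl _ _ (fun n y => ?_) ?_
  · rw [Measure.map_apply hY (measurableSet_cyl n y), Measure.map_apply hY' (measurableSet_cyl n y)]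
    have h2 := law_inf hW h n y
    rw [h1, ← law_inf hW h' n y] at h2
    exact (measureReal_eq_measureReal_iff).1 h2
  · rw [Measure.map_apply hY MeasurableSet.univ, Measure.map_apply hY' MeasurableSet.univ,
      Set.preimage_univ, Set.preimage_univ, measure_univ, measure_univ]

end Pool.Agent.K3h94.IB
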